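import Pool.Agent.H62.LJ.Stmts
import Pool.Agent.H97.KAL.CDF

/-!
# Lemma J: assembly from the conditional form
-/

set_option autoImplicit false

namespace Pool.LJ

open Finset Real
open Pool.Agent.H49.Ent Pool.Agent.H32.Dense Pool.STK Pool.KAF

namespace LJD

/-- One more step of the walk: a copy of the incidence `pr w` given `Z`. -/
lemma ext {Ω W S : Type} [Fintype Ω] [Fintype W] {p : Ω → ℝ} {q : W → ℝ} (hp : IsLaw p)
    (hq : IsLaw q) {pr : W → Ω} (m : Marg q p pr) (Z : Ω → S) :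
    ∃ Q : W × Ω → ℝ, IsLaw Q ∧ Marg Q q (fun w => w.1) ∧ Marg Q p (fun w => w.2) ∧
      (∀ w, 0 < Q w → Z (pr w.1) = Z w.2) ∧
      Marg Q (dbl p Z) (fun w => (pr w.1, w.2)) ∧
      ∀ (A B : Type) (X : Ω → A) (V : W → B),
        CH Q (fun w => X w.2) (fun w => (Z w.2, V w.1)) = CH p X Z := by
  have hZ : ∀ z, law q (fun w => Z (pr w)) z = law p Z z := fun z => m.law Z z
  refine ⟨glue q p (fun w => Z (pr w)) Z, ⟨glue_nonneg hq.nonneg hp.nonneg, ?_⟩,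
    marg_fst hq.nonneg hZ, marg_snd hp.nonneg hZ, ?_, ?_, ?_⟩
  · rw [(marg_fst hq.nonneg hZ).sum]
    exact hq.sum_one
  · intro w hw
    exact ((glue_pos_iff hq.nonneg hp.nonneg w).mp hw).2.2
  · exact Marg.glue (Z₁ := Z) (Z₂ := Z) m (Marg.id p)
  · intro A B X V
    exact CH_glue_snd hq.nonneg hp.nonneg hZ X V (fun _ _ _ _ h => h)

/-- The five incidences. -/
structure Five {Ω W Λ B : Type} [Fintype Ω] [Fintype W] (p : Ω → ℝ) (lam : Ω → Λ) (be : Ω → B)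
    (q : W → ℝ) (o₁ m₁ o₂ m₂ o₃ : W → Ω) : Prop where
  isLaw : IsLaw q
  mo1 : Marg q p o₁
  mm1 : Marg q p m₁
  mo2 : Marg q p o₂
  mm2 : Marg q p m₂
  mo3 : Marg q p o₃
  b1 : ∀ w, 0 < q w → be (o₁ w) = be (m₁ w)
  l2 : ∀ w, 0 < q w → lam (m₁ w) = lam (o₂ w)
  b2 : ∀ w, 0 < q w → be (o₂ w) = be (m₂ w)
  l3 : ∀ w, 0 < q w → lam (m₂ w) = lam (o₃ w)
  d1 : Marg q (dbl p be) (fun w => (o₁ w, m₁ w))
  d2 : Marg q (dbl p lam) (fun w => (m₁ w, o₂ w))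
  d3 : Marg q (dbl p be) (fun w => (o₂ w, m₂ w))
  e1 : ∀ (A : Type) (X : Ω → A),
    CH q (fun w => X (m₁ w)) (fun w => (be (m₁ w), o₁ w)) = CH p X be
  e2 : ∀ (A : Type) (X : Ω → A),
    CH q (fun w => X (o₂ w)) (fun w => (lam (o₂ w), (o₁ w, m₁ w))) = CH p X lam
  e3 : ∀ (A : Type) (X : Ω → A),
    CH q (fun w => X (m₂ w)) (fun w => (be (m₂ w), ((o₁ w, m₁ w), o₂ w))) = CH p X be
  e4 : ∀ (A : Type) (X : Ω → A),
    CH q (fun w => X (o₃ w)) (fun w => (lam (o₃ w), (((o₁ w, m₁ w), o₂ w), m₂ w))) = CH p X lam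

theorem exists_five {Ω Λ B : Type} [Fintype Ω] {p : Ω → ℝ} (hp : IsLaw p) (lam : Ω → Λ)
    (be : Ω → B) : ∃ (W : Type) (_ : Fintype W) (q : W → ℝ) (o₁ m₁ o₂ m₂ o₃ : W → Ω),
      Five p lam be q o₁ m₁ o₂ m₂ o₃ := by
  obtain ⟨q1, h1, f1, s1, z1, D1, c1⟩ := ext hp hp (Marg.id p) be
  obtain ⟨q2, h2, f2, s2, z2, D2, c2⟩ := ext hp h1 s1 lam
  obtain ⟨q3, h3, f3, s3, z3, D3, c3⟩ := ext hp h2 s2 be
  obtain ⟨q4, h4, f4, s4, z4, D4, c4⟩ := ext hp h3 s3 lam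
  refine ⟨(((Ω × Ω) × Ω) × Ω) × Ω, inferInstance, q4, fun w => w.1.1.1.1, fun w => w.1.1.1.2,
    fun w => w.1.1.2, fun w => w.1.2, fun w => w.2, ?_⟩
  have p3 : ∀ w, 0 < q4 w → 0 < q3 w.1 := fun w hw => f4.pos h4.nonneg hw
  have p2 : ∀ w, 0 < q4 w → 0 < q2 w.1.1 := fun w hw => f3.pos h3.nonneg (p3 w hw)
  have p1 : ∀ w, 0 < q4 w → 0 < q1 w.1.1.1 := fun w hw => f2.pos h2.nonneg (p2 w hw)
  have g2 : Marg q4 q2 (fun w => w.1.1) := f4.comp f3
  have g1 : Marg q4 q1 (fun w => w.1.1.1) := g2.comp f2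
  exact {
    isLaw := h4
    mo1 := g1.comp f1
    mm1 := g1.comp s1
    mo2 := g2.comp s2
    mm2 := f4.comp s3
    mo3 := s4
    b1 := fun w hw => z1 _ (p1 w hw)
    l2 := fun w hw => z2 _ (p2 w hw)
    b2 := fun w hw => z3 _ (p3 w hw)
    l3 := fun w hw => z4 _ hw
    d1 := g1.comp D1
    d2 := g2.comp D2
    d3 := f4.comp D3
    e1 := fun A X => (g1.CH (fun w => X w.2) (fun w => (be w.2, w.1))).trans
      (c1 A Ω X (fun w => w))
    e2 := fun A X => (g2.CH (fun w => X w.2) (fun w => (lam w.2, w.1))).trans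
      (c2 A (Ω × Ω) X (fun w => w))
    e3 := fun A X => (f4.CH (fun w => X w.2) (fun w => (be w.2, w.1))).trans
      (c3 A ((Ω × Ω) × Ω) X (fun w => w))
    e4 := fun A X => c4 A (((Ω × Ω) × Ω) × Ω) X (fun w => w) }

section Entropy

variable {W : Type} [Fintype W]

/-- Symmetry of the mutual information. -/
lemma CH_sym {A B C : Type} {q : W → ℝ} (hq : ∀ w, 0 ≤ q w) (X : W → A) (Y : W → B) (Z : W → C) :
    CH q X (fun w => (Y w, Z w)) = CH q X Z + CH q Y (fun w => (X w, Z w)) - CH q Y Z := by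
  have h1 := CH_chain hq X Y Z
  have h2 := CH_chain hq Y X Z
  have h3 : CH q (fun w => (X w, Y w)) Z = CH q (fun w => (Y w, X w)) Z := by
    refine CH_congr hq ?_ ?_ (fun _ _ _ _ h => h) (fun _ _ _ _ h => h) <;>
    · intro ω ω' _ _ h
      simp only [Prod.mk.injEq] at h ⊢
      tauto
  linarith

lemma CH_le_pow {A : Type} {q : W → ℝ} (hq : IsLaw q) (T : W → ℤ) (Z : W → A) (K : ℕ)
    (h : ∀ w, 0 < q w → 0 ≤ T w ∧ T w < 2 ^ K) : CH q T Z ≤ K * Real.log 2 := by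
  refine (CH_le_card hq.nonneg hq.sum_one T Z (fun _ => Finset.Ico 0 (2 ^ K)) ?_).trans ?_
  · intro w hw
    exact Finset.mem_Ico.mpr (h w hw)
  · simp only [Int.card_Ico, sub_zero]
    rw [Ex_const hq.sum_one]
    have h1 : (((2 : ℤ) ^ K).toNat : ℝ) = 2 ^ K := by
      have h2 : ((((2 : ℤ) ^ K).toNat : ℤ) : ℝ) = ((2 ^ K : ℤ) : ℝ) := by
        rw [Int.toNat_of_nonneg (by positivity)]
      rw [Int.cast_natCast] at h2
      rw [h2]
      push_cast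
      rfl
    rw [h1, Real.log_pow]

end Entropy

section Walk

variable {Ω W Λ β B : Type} [Fintype Ω] [Fintype W] {p : Ω → ℝ} {lam : Ω → Λ} {be : Ω → B}
  {q : W → ℝ} {o₁ m₁ o₂ m₂ o₃ : W → Ω}

/-- Information of the first time. -/
lemma ent1 (h : Five p lam be q o₁ m₁ o₂ m₂ o₃) {b : Ω → β} {T om : Ω → ℤ} {K : ℕ}
    {e I : ℝ} (hT : ∀ ω, 0 < p ω → 0 ≤ T ω ∧ T ω < 2 ^ K)
    (hl : ∀ ω ω', 0 < p ω → 0 < p ω' → lam ω = lam ω' → b ω = b ω')
    (hm : ∀ ω ω', 0 < p ω → 0 < p ω' → be ω = be ω' → b ω = b ω')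
    (he : K * Real.log 2 - e ≤ CH p T lam) (hI : CH p om b - CH p om be ≤ I) :
    K * Real.log 2 - 2 * e - 2 * I ≤ CH q (fun w => T (o₁ w))
      (fun w => ((T (o₃ w), (om (m₂ w), om (m₁ w))), lam (o₁ w))) := by
  have hq := h.isLaw.nonneg
  have P1 : ∀ w, 0 < q w → 0 < p (o₁ w) := fun w hw => h.mo1.pos hq hw
  have P2 : ∀ w, 0 < q w → 0 < p (m₁ w) := fun w hw => h.mm1.pos hq hw
  have P3 : ∀ w, 0 < q w → 0 < p (o₂ w) := fun w hw => h.mo2.pos hq hw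
  have P4 : ∀ w, 0 < q w → 0 < p (m₂ w) := fun w hw => h.mm2.pos hq hw
  have bm1 : ∀ w, 0 < q w → b (o₁ w) = b (m₁ w) := fun w hw =>
    hm _ _ (P1 w hw) (P2 w hw) (h.b1 w hw)
  have bm2 : ∀ w, 0 < q w → b (o₁ w) = b (m₂ w) := fun w hw =>
    ((bm1 w hw).trans (hl _ _ (P2 w hw) (P3 w hw) (h.l2 w hw))).trans
      (hm _ _ (P3 w hw) (P4 w hw) (h.b2 w hw))
  have a0 := CH_sym hq (fun w => T (o₁ w)) (fun w => (T (o₃ w), (om (m₂ w), om (m₁ w))))
    (fun w => lam (o₁ w))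
  have a1 : CH q (fun w => T (o₁ w)) (fun w => lam (o₁ w)) = CH p T lam := h.mo1.CH T lam
  have u1 := CH_subadd hq (fun w => T (o₃ w)) (fun w => (om (m₂ w), om (m₁ w)))
    (fun w => lam (o₁ w))
  have u2 := CH_subadd hq (fun w => om (m₂ w)) (fun w => om (m₁ w)) (fun w => lam (o₁ w))
  have u3 : CH q (fun w => T (o₃ w)) (fun w => lam (o₁ w)) ≤ K * Real.log 2 :=
    CH_le_pow h.isLaw _ _ K (fun w hw => hT _ (h.mo3.pos hq hw))
  have u4 : CH q (fun w => om (m₂ w)) (fun w => lam (o₁ w)) ≤ CH p om b := by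
    rw [← h.mm2.CH om b]
    refine CH_mono_cond hq ?_
    intro w w' a a' hh
    change b (m₂ w) = b (m₂ w')
    rw [← bm2 w a, ← bm2 w' a']
    exact hl _ _ (P1 w a) (P1 w' a') hh
  have u5 : CH q (fun w => om (m₁ w)) (fun w => lam (o₁ w)) ≤ CH p om b := by
    rw [← h.mm1.CH om b]
    refine CH_mono_cond hq ?_
    intro w w' a a' hh
    change b (m₁ w) = b (m₁ w')
    rw [← bm1 w a, ← bm1 w' a']
    exact hl _ _ (P1 w a) (P1 w' a') hh
  have l0 := CH_chain hq (fun w => T (o₃ w)) (fun w => (om (m₂ w), om (m₁ w)))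
    (fun w => (T (o₁ w), lam (o₁ w)))
  have l1 := CH_chain hq (fun w => om (m₂ w)) (fun w => om (m₁ w))
    (fun w => (T (o₁ w), lam (o₁ w)))
  have l2 : CH p om be ≤ CH q (fun w => om (m₁ w)) (fun w => (T (o₁ w), lam (o₁ w))) := by
    rw [← h.e1 _ om]
    refine CH_mono_cond hq ?_
    intro w w' _ _ hh
    simp only [Prod.mk.injEq] at hh ⊢
    rw [hh.2]
    exact ⟨rfl, rfl⟩
  have l3 : CH p om be ≤ CH q (fun w => om (m₂ w))
      (fun w => (om (m₁ w), (T (o₁ w), lam (o₁ w)))) := by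
    rw [← h.e3 _ om]
    refine CH_mono_cond hq ?_
    intro w w' _ _ hh
    simp only [Prod.mk.injEq] at hh ⊢
    rw [hh.2.1.1, hh.2.1.2]
    exact ⟨rfl, rfl, rfl⟩
  have l4 : CH p T lam ≤ CH q (fun w => T (o₃ w))
      (fun w => ((om (m₂ w), om (m₁ w)), (T (o₁ w), lam (o₁ w)))) := by
    rw [← h.e4 _ T]
    refine CH_mono_cond hq ?_
    intro w w' _ _ hh
    simp only [Prod.mk.injEq] at hh ⊢
    rw [hh.2.1.1.1, hh.2.1.1.2, hh.2.2]
    exact ⟨⟨rfl, rfl⟩, rfl, rfl⟩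
  linarith

/-- Information of the second time. -/
lemma ent2 (h : Five p lam be q o₁ m₁ o₂ m₂ o₃) {b : Ω → β} {T om : Ω → ℤ} {K : ℕ}
    {e I : ℝ} (hT : ∀ ω, 0 < p ω → 0 ≤ T ω ∧ T ω < 2 ^ K)
    (hl : ∀ ω ω', 0 < p ω → 0 < p ω' → lam ω = lam ω' → b ω = b ω')
    (hm : ∀ ω ω', 0 < p ω → 0 < p ω' → be ω = be ω' → b ω = b ω')
    (he : K * Real.log 2 - e ≤ CH p T lam) (hI : CH p om b - CH p om be ≤ I) :
    K * Real.log 2 - 2 * e - I ≤ CH q (fun w => T (o₂ w))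
      (fun w => ((T (o₃ w), om (m₂ w)), (o₁ w, m₁ w))) := by
  have hq := h.isLaw.nonneg
  have P2 : ∀ w, 0 < q w → 0 < p (m₁ w) := fun w hw => h.mm1.pos hq hw
  have P3 : ∀ w, 0 < q w → 0 < p (o₂ w) := fun w hw => h.mo2.pos hq hw
  have P4 : ∀ w, 0 < q w → 0 < p (m₂ w) := fun w hw => h.mm2.pos hq hw
  have bm : ∀ w, 0 < q w → b (m₁ w) = b (m₂ w) := fun w hw =>
    (hl _ _ (P2 w hw) (P3 w hw) (h.l2 w hw)).trans (hm _ _ (P3 w hw) (P4 w hw) (h.b2 w hw))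
  have a0 := CH_sym hq (fun w => T (o₂ w)) (fun w => (T (o₃ w), om (m₂ w)))
    (fun w => (o₁ w, m₁ w))
  have a1 : CH p T lam ≤ CH q (fun w => T (o₂ w)) (fun w => (o₁ w, m₁ w)) := by
    rw [← h.e2 _ T]
    refine CH_mono_cond hq ?_
    intro w w' _ _ hh
    exact (Prod.ext_iff.mp hh).2
  have u1 := CH_subadd hq (fun w => T (o₃ w)) (fun w => om (m₂ w)) (fun w => (o₁ w, m₁ w))
  have u3 : CH q (fun w => T (o₃ w)) (fun w => (o₁ w, m₁ w)) ≤ K * Real.log 2 :=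
    CH_le_pow h.isLaw _ _ K (fun w hw => hT _ (h.mo3.pos hq hw))
  have u4 : CH q (fun w => om (m₂ w)) (fun w => (o₁ w, m₁ w)) ≤ CH p om b := by
    rw [← h.mm2.CH om b]
    refine CH_mono_cond hq ?_
    intro w w' a a' hh
    change b (m₂ w) = b (m₂ w')
    rw [← bm w a, ← bm w' a']
    exact congrArg b (Prod.ext_iff.mp hh).2
  have l0 := CH_chain hq (fun w => T (o₃ w)) (fun w => om (m₂ w))
    (fun w => (T (o₂ w), (o₁ w, m₁ w)))
  have l3 : CH p om be ≤ CH q (fun w => om (m₂ w)) (fun w => (T (o₂ w), (o₁ w, m₁ w))) := by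
    rw [← h.e3 _ om]
    refine CH_mono_cond hq ?_
    intro w w' _ _ hh
    simp only [Prod.mk.injEq] at hh ⊢
    rw [hh.2.1.1, hh.2.1.2, hh.2.2]
    exact ⟨rfl, rfl, rfl⟩
  have l4 : CH p T lam ≤ CH q (fun w => T (o₃ w))
      (fun w => (om (m₂ w), (T (o₂ w), (o₁ w, m₁ w)))) := by
    rw [← h.e4 _ T]
    refine CH_mono_cond hq ?_
    intro w w' _ _ hh
    simp only [Prod.mk.injEq] at hh ⊢
    rw [hh.2.1.1.1, hh.2.1.1.2, hh.2.1.2, hh.2.2]
    exact ⟨rfl, rfl, rfl, rfl⟩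
  linarith

end Walk

section Real

/-- Position after three segments. -/
lemma pos_y {D yr y1 y2 y3 tr t1 t2 t3 a0 a1 a2 : ℝ} (hD : 0 < D)
    (h1 : |D * (y1 - yr) - (t1 - tr) * a0| ≤ 4 * D)
    (h2 : |D * (y2 - y1) - (t2 - t1) * a1| ≤ 4 * D)
    (h3 : |D * (y3 - y2) - (t3 - t2) * a2| ≤ 4 * D) :
    |y3 - (yr + (t3 - tr) * (a0 / D) + (t3 - t1) * ((a1 - a0) / D) +
      (t3 - t2) * ((a2 - a1) / D))| ≤ 32 := by
  have e : D * (y3 - (yr + (t3 - tr) * (a0 / D) + (t3 - t1) * ((a1 - a0) / D) +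
      (t3 - t2) * ((a2 - a1) / D))) = (D * (y1 - yr) - (t1 - tr) * a0) +
      (D * (y2 - y1) - (t2 - t1) * a1) + (D * (y3 - y2) - (t3 - t2) * a2) := by
    field_simp
    ring
  have hb : |D * (y3 - (yr + (t3 - tr) * (a0 / D) + (t3 - t1) * ((a1 - a0) / D) +
      (t3 - t2) * ((a2 - a1) / D)))| ≤ 12 * D := by
    rw [e]
    refine (abs_add_three _ _ _).trans ?_
    linarith
  rw [abs_mul, abs_of_pos hD] at hb
  have h5 : |y3 - (yr + (t3 - tr) * (a0 / D) + (t3 - t1) * ((a1 - a0) / D) +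
      (t3 - t2) * ((a2 - a1) / D))| ≤ 12 := by
    refine le_of_mul_le_mul_left (a := D) ?_ hD
    linarith
  linarith

/-- The second coordinate: the increments of the velocity are in the planks. -/
lemma pos_n {D nr n1 n2 n3 tr t1 t2 t3 a0 a1 a2 v0 v1 v2 F1 F2 : ℝ} (hD : 0 < D)
    (h1 : |D * (n1 - nr) - (t1 - tr) * v0| ≤ 4 * D)
    (h2 : |D * (n2 - n1) - (t2 - t1) * v1| ≤ 4 * D)
    (h3 : |D * (n3 - n2) - (t3 - t2) * v2| ≤ 4 * D)
    (g1 : |D * (v1 - v0) - F1 * (a1 - a0)| ≤ 4 * D)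
    (g2 : |D * (v2 - v1) - F2 * (a2 - a1)| ≤ 4 * D)
    (k1 : |t3 - t1| ≤ D) (k2 : |t3 - t2| ≤ D) :
    |n3 - (nr + (t3 - tr) * (v0 / D) + (t3 - t1) * ((a1 - a0) / D) * (F1 / D) +
      (t3 - t2) * ((a2 - a1) / D) * (F2 / D))| ≤ 32 := by
  set X := n3 - (nr + (t3 - tr) * (v0 / D) + (t3 - t1) * ((a1 - a0) / D) * (F1 / D) +
      (t3 - t2) * ((a2 - a1) / D) * (F2 / D)) with hX
  have e : D * D * X = D * (D * (n1 - nr) - (t1 - tr) * v0) +
      D * (D * (n2 - n1) - (t2 - t1) * v1) + D * (D * (n3 - n2) - (t3 - t2) * v2) +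
      (t3 - t1) * (D * (v1 - v0) - F1 * (a1 - a0)) +
      (t3 - t2) * (D * (v2 - v1) - F2 * (a2 - a1)) := by
    rw [hX]
    field_simp
    ring
  have b1 : |D * (D * (n1 - nr) - (t1 - tr) * v0)| ≤ D * (4 * D) := by
    rw [abs_mul, abs_of_pos hD]
    exact mul_le_mul_of_nonneg_left h1 hD.le
  have b2 : |D * (D * (n2 - n1) - (t2 - t1) * v1)| ≤ D * (4 * D) := by
    rw [abs_mul, abs_of_pos hD]
    exact mul_le_mul_of_nonneg_left h2 hD.le
  have b3 : |D * (D * (n3 - n2) - (t3 - t2) * v2)| ≤ D * (4 * D) := by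
    rw [abs_mul, abs_of_pos hD]
    exact mul_le_mul_of_nonneg_left h3 hD.le
  have b4 : |(t3 - t1) * (D * (v1 - v0) - F1 * (a1 - a0))| ≤ D * (4 * D) := by
    rw [abs_mul]
    exact mul_le_mul k1 g1 (abs_nonneg _) hD.le
  have b5 : |(t3 - t2) * (D * (v2 - v1) - F2 * (a2 - a1))| ≤ D * (4 * D) := by
    rw [abs_mul]
    exact mul_le_mul k2 g2 (abs_nonneg _) hD.le
  have hb : |D * D * X| ≤ 20 * (D * D) := by
    rw [e]
    refine (abs_add_le _ _).trans ?_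
    have c1 := abs_add_le (D * (D * (n1 - nr) - (t1 - tr) * v0) +
      D * (D * (n2 - n1) - (t2 - t1) * v1) + D * (D * (n3 - n2) - (t3 - t2) * v2))
      ((t3 - t1) * (D * (v1 - v0) - F1 * (a1 - a0)))
    have c2 := abs_add_three (D * (D * (n1 - nr) - (t1 - tr) * v0))
      (D * (D * (n2 - n1) - (t2 - t1) * v1)) (D * (D * (n3 - n2) - (t3 - t2) * v2))
    linarith
  have hDD : 0 < D * D := mul_pos hD hD
  rw [abs_mul, abs_of_pos hDD] at hb
  have h5 : |X| ≤ 20 := by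
    refine le_of_mul_le_mul_left (a := D * D) ?_ hDD
    linarith
  linarith

end Real

section Prob

variable {W : Type} [Fintype W] {q : W → ℝ}

lemma exists_sec {Γ : Type} (hq : IsLaw q) (c : W → Γ) :
    ∃ σ : Γ → W, ∀ w, 0 < q w → 0 < q (σ (c w)) ∧ c (σ (c w)) = c w := by
  classical
  have hne : ∃ w, 0 < q w := by
    by_contra hh
    simp only [not_exists, not_lt] at hh
    have h1 := hq.sum_one
    have h2 : ∑ w, q w ≤ 0 := Finset.sum_nonpos fun w _ => hh w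
    linarith
  obtain ⟨w0, _⟩ := hne
  refine ⟨fun g => if h : ∃ w, 0 < q w ∧ c w = g then h.choose else w0, ?_⟩
  intro w hw
  have hex : ∃ w', 0 < q w' ∧ c w' = c w := ⟨w, hw, rfl⟩
  simp only [dif_pos hex]
  exact hex.choose_spec

lemma Pr_pull {Ω : Type} [Fintype Ω] {r : Ω → ℝ} {pr : W → Ω} (m : Marg q r pr) (E : Set Ω) :
    Pr q {w | pr w ∈ E} = Pr r E :=
  m.law (fun ω => ω ∈ E) True

lemma Pr_ge (hq : IsLaw q) (G E₁ E₂ E₃ : Set W)
    (h : ∀ w, 0 < q w → w ∉ G → w ∈ E₁ ∨ w ∈ E₂ ∨ w ∈ E₃) :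
    1 - Pr q E₁ - Pr q E₂ - Pr q E₃ ≤ Pr q G := by
  classical
  rw [← hq.sum_one, Pool.KAL.CDF.Pr_eq, Pool.KAL.CDF.Pr_eq, Pool.KAL.CDF.Pr_eq,
    Pool.KAL.CDF.Pr_eq, ← Finset.sum_sub_distrib, ← Finset.sum_sub_distrib,
    ← Finset.sum_sub_distrib]
  refine Finset.sum_le_sum fun w _ => ?_
  rcases (hq.nonneg w).eq_or_lt with h0 | h0
  · rw [← h0]
    simp
  · by_cases hG : w ∈ G
    · rw [if_pos hG]
      have h3 : ∀ E : Set W, 0 ≤ (if w ∈ E then q w else 0) := fun E => by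
        split_ifs
        · exact h0.le
        · exact le_rfl
      have a1 := h3 E₁
      have a2 := h3 E₂
      have a3 := h3 E₃
      linarith
    · rw [if_neg hG]
      have h3 : ∀ E : Set W, 0 ≤ (if w ∈ E then q w else 0) := fun E => by
        split_ifs
        · exact h0.le
        · exact le_rfl
      have a1 := h3 E₁
      have a2 := h3 E₂
      have a3 := h3 E₃
      rcases h w h0 hG with hE | hE | hE
      · rw [if_pos hE]
        linarith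
      · rw [if_pos hE] at a2 ⊢
        linarith
      · rw [if_pos hE] at a3 ⊢
        linarith

lemma Pr_nonneg (hq : IsLaw q) (E : Set W) : 0 ≤ Pr q E := law_nonneg hq.nonneg _ _

end Prob

/-- The last step of the proof, real numbers only. -/
lemma fin_real {C α δ e I β1 β2 G D1 D2 Hc Hb : ℝ} {K i : ℕ} (hC : 1 ≤ C) (hα : 0 < α)
    (hδ : 0 < δ) (hβ : β1 + 2 * β2 ≤ 1) (he : 0 ≤ e) (hI : 0 ≤ I) (hG : 1 - β1 - 2 * β2 ≤ G)
    (key : G * (3 * ((K - i) * Real.log 2) - K * Real.log 2 -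
      Real.log (C * (1 + K * Real.log 2) / (α * δ ^ 3))) - 2 * (D1 + D2) - 3 ≤ Hc)
    (hD : 2 * (D1 + D2) ≤ 8 * e + 6 * I + 2 * i * Real.log 2) (hH : Hc ≤ Hb) (hHb : 0 ≤ Hb) :
    (1 - β1 - 2 * β2) * ((2 * K - 3 * i) * Real.log 2 -
      Real.log ((C + 3) * (1 + K) / (α * δ ^ 3))) - (8 * e + 6 * I + 2 * i * Real.log 2) -
      (C + 3) ≤ Hb := by
  have hl2 : 0 < Real.log 2 := Real.log_pos (by norm_num)
  have hl21 : Real.log 2 ≤ 1 := by linarith [Real.log_two_lt_d9]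
  have hden : 0 < α * δ ^ 3 := by positivity
  have hK : (0 : ℝ) ≤ K := Nat.cast_nonneg K
  have hi : (0 : ℝ) ≤ i := Nat.cast_nonneg i
  have hlog : Real.log (C * (1 + K * Real.log 2) / (α * δ ^ 3)) ≤
      Real.log ((C + 3) * (1 + K) / (α * δ ^ 3)) := by
    have h0 : 0 < C * (1 + K * Real.log 2) := by
      have : 0 ≤ K * Real.log 2 := mul_nonneg hK hl2.le
      positivity
    refine Real.log_le_log (div_pos h0 hden) ?_
    refine div_le_div_of_nonneg_right ?_ hden.le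
    have h1 : K * Real.log 2 ≤ K := by
      calc K * Real.log 2 ≤ K * 1 := mul_le_mul_of_nonneg_left hl21 hK
        _ = K := mul_one _
    have h2 : C * (1 + K * Real.log 2) ≤ C * (1 + K) :=
      mul_le_mul_of_nonneg_left (by linarith) (by linarith)
    have h3 : C * (1 + (K : ℝ)) ≤ (C + 3) * (1 + K) := by nlinarith
    linarith
  set Q := 3 * (((K : ℝ) - i) * Real.log 2) - K * Real.log 2 -
      Real.log (C * (1 + K * Real.log 2) / (α * δ ^ 3)) with hQ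
  have hQ' : (2 * (K : ℝ) - 3 * i) * Real.log 2 -
      Real.log ((C + 3) * (1 + K) / (α * δ ^ 3)) ≤ Q := by
    rw [hQ]
    have : 3 * (((K : ℝ) - i) * Real.log 2) - K * Real.log 2 =
      (2 * (K : ℝ) - 3 * i) * Real.log 2 := by ring
    linarith
  have hb0 : 0 ≤ 1 - β1 - 2 * β2 := by linarith
  have s1 : (1 - β1 - 2 * β2) * ((2 * (K : ℝ) - 3 * i) * Real.log 2 -
      Real.log ((C + 3) * (1 + K) / (α * δ ^ 3))) ≤ (1 - β1 - 2 * β2) * Q :=
    mul_le_mul_of_nonneg_left hQ' hb0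
  have hil : 0 ≤ 2 * (i : ℝ) * Real.log 2 := by positivity
  rcases le_or_gt 0 Q with h0 | h0
  · have s2 : (1 - β1 - 2 * β2) * Q ≤ G * Q := mul_le_mul_of_nonneg_right hG h0
    linarith
  · have s2 : (1 - β1 - 2 * β2) * Q ≤ 0 := mul_nonpos_of_nonneg_of_nonpos hb0 h0.le
    linarith

end LJD

open LJD in
/-- **Row LJD.** -/
theorem ljd_thm (hC : LJCStmt) : LJDStmt := by
  obtain ⟨C, hC1, hC⟩ := hC
  refine ⟨C + 3, by linarith, ?_⟩
  intro Ω Λ β γ _ p lam b P T y n om ve F K i α δ e I β1 β2 hp hiK hα0 hα1 hδ0 hδ1 hβ hbd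
    hline hmate he hI hβ1 hβ2
  classical
  set be : Ω → β × ℤ × γ := fun ω => (b ω, T ω, P ω) with hbe
  have hmb : ∀ ω ω', be ω = be ω' → b ω = b ω' ∧ T ω = T ω' ∧ P ω = P ω' := by
    intro ω ω' hh
    simpa only [hbe, Prod.mk.injEq] using hh
  obtain ⟨W, iW, q, o₁, m₁, o₂, m₂, o₃, h⟩ := exists_five hp lam be
  have hq := h.isLaw.nonneg
  have P1 : ∀ w, 0 < q w → 0 < p (o₁ w) := fun w hw => h.mo1.pos hq hw
  have P2 : ∀ w, 0 < q w → 0 < p (m₁ w) := fun w hw => h.mm1.pos hq hw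
  have P3 : ∀ w, 0 < q w → 0 < p (o₂ w) := fun w hw => h.mo2.pos hq hw
  have P4 : ∀ w, 0 < q w → 0 < p (m₂ w) := fun w hw => h.mm2.pos hq hw
  have P5 : ∀ w, 0 < q w → 0 < p (o₃ w) := fun w hw => h.mo3.pos hq hw
  have hT : ∀ ω, 0 < p ω → 0 ≤ T ω ∧ T ω < 2 ^ K := fun ω hω =>
    ⟨(hbd ω hω).1, (hbd ω hω).2.1⟩
  have hl : ∀ ω ω', 0 < p ω → 0 < p ω' → lam ω = lam ω' → b ω = b ω' :=
    fun ω ω' a a' hh => (hline ω ω' a a' hh).1
  have hm : ∀ ω ω', 0 < p ω → 0 < p ω' → be ω = be ω' → b ω = b ω' :=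
    fun ω ω' _ _ hh => (hmb ω ω' hh).1
  have E1 := ent1 h hT hl hm he hI
  have E2 := ent2 h hT hl hm he hI
  have he0 : 0 ≤ e := by
    have := CH_le_pow hp T lam K hT
    linarith
  have hI0 : 0 ≤ I := by
    have : CH p om be ≤ CH p om b := CH_mono_cond hp.nonneg hm
    linarith
  -- the conditioning variable
  set N : ℤ := 2 ^ (K - i) with hN
  have hN0 : 0 < N := by rw [hN]; positivity
  have hMN : (2 : ℤ) ^ K = 2 ^ i * N := by
    rw [hN, ← pow_add]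
    congr 1
    omega
  set c : W → Λ × ℤ × ℤ × ℤ × ℤ × ℤ := fun w => (lam (o₁ w), om (m₁ w), om (m₂ w), T (o₃ w),
    T (o₁ w) / N, T (o₂ w) / N) with hc
  obtain ⟨σ, hσ⟩ := exists_sec h.isLaw c
  have hcc : ∀ w, 0 < q w → lam (o₁ (σ (c w))) = lam (o₁ w) ∧ om (m₁ (σ (c w))) = om (m₁ w) ∧
      om (m₂ (σ (c w))) = om (m₂ w) ∧ T (o₃ (σ (c w))) = T (o₃ w) ∧
      T (o₁ (σ (c w))) / N = T (o₁ w) / N ∧ T (o₂ (σ (c w))) / N = T (o₂ w) / N := by
    intro w hw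
    have h1 := (hσ w hw).2
    have h2 : c (σ (c w)) = (lam (o₁ (σ (c w))), om (m₁ (σ (c w))), om (m₂ (σ (c w))),
      T (o₃ (σ (c w))), T (o₁ (σ (c w))) / N, T (o₂ (σ (c w))) / N) := rfl
    rw [h2] at h1
    have h3 : c w = (lam (o₁ w), om (m₁ w), om (m₂ w), T (o₃ w), T (o₁ w) / N,
      T (o₂ w) / N) := rfl
    generalize hg : σ (c w) = w0 at h1 ⊢
    rw [h3] at h1
    simpa only [Prod.mk.injEq] using h1
  set D : ℝ := 2 ^ K with hDdef
  have hD0 : 0 < D := by rw [hDdef]; positivity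
  set f : Λ × ℤ × ℤ × ℤ × ℤ × ℤ → ℝ := fun g => (F (o₁ (σ g)) : ℝ) / D with hf
  set d1 : Λ × ℤ × ℤ × ℤ × ℤ × ℤ → ℝ := fun g => ((om (m₁ (σ g)) : ℝ) - om (o₁ (σ g))) / D
    with hd1
  set d2 : Λ × ℤ × ℤ × ℤ × ℤ × ℤ → ℝ := fun g => ((om (m₂ (σ g)) : ℝ) - om (m₁ (σ g))) / D
    with hd2
  set y0 : Λ × ℤ × ℤ × ℤ × ℤ × ℤ → ℝ := fun g => (y (o₁ (σ g)) : ℝ) +
    ((T (o₃ (σ g)) : ℝ) - T (o₁ (σ g))) * ((om (o₁ (σ g)) : ℝ) / D) with hy0
  set n0 : Λ × ℤ × ℤ × ℤ × ℤ × ℤ → ℝ := fun g => (n (o₁ (σ g)) : ℝ) +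
    ((T (o₃ (σ g)) : ℝ) - T (o₁ (σ g))) * ((ve (o₁ (σ g)) : ℝ) / D) with hn0
  set A1 : Λ × ℤ × ℤ × ℤ × ℤ × ℤ → ℤ := fun g =>
    T (o₃ (σ g)) - (T (o₁ (σ g)) / N + 1) * N + 1 with hA1
  set A2 : Λ × ℤ × ℤ × ℤ × ℤ × ℤ → ℤ := fun g =>
    T (o₃ (σ g)) - (T (o₂ (σ g)) / N + 1) * N + 1 with hA2
  set G : Set W := {w | α ≤ |(F (o₂ w) : ℝ) / D - f (c w)| ∧ δ ≤ |d1 (c w)| ∧ δ ≤ |d2 (c w)|}
    with hGdef
  -- the values on the support
  have l1 : ∀ w, 0 < q w → om (o₁ (σ (c w))) = om (o₁ w) ∧ ve (o₁ (σ (c w))) = ve (o₁ w) ∧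
      F (o₁ (σ (c w))) = F (o₁ w) := by
    intro w hw
    obtain ⟨x1, -, -, -, x5, -⟩ := hcc w hw
    have h1 := hline _ _ (P1 _ (hσ w hw).1) (P1 w hw) x1
    exact ⟨h1.2.1, h1.2.2.1, h1.2.2.2.2.2 x5⟩
  have l2 : ∀ w, 0 < q w → om (m₁ w) = om (o₂ w) ∧ ve (m₁ w) = ve (o₂ w) := by
    intro w hw
    have h1 := hline _ _ (P2 w hw) (P3 w hw) (h.l2 w hw)
    exact ⟨h1.2.1, h1.2.2.1⟩
  have m1 : ∀ w, 0 < q w → T (o₁ w) = T (m₁ w) ∧ y (o₁ w) = y (m₁ w) ∧ n (o₁ w) = n (m₁ w) ∧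
      F (o₁ w) = F (m₁ w) ∧ |D * ((ve (m₁ w) : ℝ) - ve (o₁ w)) -
        F (o₁ w) * ((om (m₁ w) : ℝ) - om (o₁ w))| ≤ 4 * D := by
    intro w hw
    obtain ⟨x1, x2, x3⟩ := hmb _ _ (h.b1 w hw)
    have h1 := hmate _ _ (P1 w hw) (P2 w hw) x1 x2 x3
    exact ⟨x2, h1.1, h1.2.1, h1.2.2.1, h1.2.2.2⟩
  have m2 : ∀ w, 0 < q w → T (o₂ w) = T (m₂ w) ∧ y (o₂ w) = y (m₂ w) ∧ n (o₂ w) = n (m₂ w) ∧
      F (o₂ w) = F (m₂ w) ∧ |D * ((ve (m₂ w) : ℝ) - ve (o₂ w)) -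
        F (o₂ w) * ((om (m₂ w) : ℝ) - om (o₂ w))| ≤ 4 * D := by
    intro w hw
    obtain ⟨x1, x2, x3⟩ := hmb _ _ (h.b2 w hw)
    have h1 := hmate _ _ (P3 w hw) (P4 w hw) x1 x2 x3
    exact ⟨x2, h1.1, h1.2.1, h1.2.2.1, h1.2.2.2⟩
  have vf : ∀ w, 0 < q w → f (c w) = (F (o₁ w) : ℝ) / D := by
    intro w hw
    simp only [hf]
    rw [(l1 w hw).2.2]
  have vd1 : ∀ w, 0 < q w → d1 (c w) = ((om (m₁ w) : ℝ) - om (o₁ w)) / D := by
    intro w hw
    simp only [hd1]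
    rw [(l1 w hw).1, (hcc w hw).2.1]
  have vd2 : ∀ w, 0 < q w → d2 (c w) = ((om (m₂ w) : ℝ) - om (m₁ w)) / D := by
    intro w hw
    simp only [hd2]
    rw [(hcc w hw).2.2.1, (hcc w hw).2.1]
  have hom : ∀ ω, 0 < p ω → |(om ω : ℝ)| ≤ D := by
    intro ω hω
    have h1 := (hbd ω hω).2.2.1
    have h2 : ((|om ω| : ℤ) : ℝ) ≤ ((2 ^ K : ℤ) : ℝ) := by exact_mod_cast h1
    rw [Int.cast_abs] at h2
    rw [hDdef]
    exact_mod_cast h2
  have hF : ∀ ω, 0 < p ω → |(F ω : ℝ)| ≤ D := by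
    intro ω hω
    have h1 := (hbd ω hω).2.2.2
    have h2 : ((|F ω| : ℤ) : ℝ) ≤ ((2 ^ K : ℤ) : ℝ) := by exact_mod_cast h1
    rw [Int.cast_abs] at h2
    rw [hDdef]
    exact_mod_cast h2
  have hTr : ∀ ω, 0 < p ω → 0 ≤ (T ω : ℝ) ∧ (T ω : ℝ) ≤ D := by
    intro ω hω
    have h1 := (hT ω hω).1
    have h2 := (hT ω hω).2
    refine ⟨by exact_mod_cast h1, ?_⟩
    rw [hDdef]
    exact_mod_cast h2.le
  have key := hC W (Λ × ℤ × ℤ × ℤ × ℤ × ℤ) q c (fun w => T (o₃ w) - T (o₁ w))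
    (fun w => T (o₃ w) - T (o₂ w)) (fun w => y (o₃ w)) (fun w => n (o₃ w))
    (fun w => (F (o₂ w) : ℝ) / D) f d1 d2 y0 n0 A1 A2 G (2 ^ K) (2 ^ (K - i)) α δ h.isLaw
    Nat.one_le_two_pow (Nat.pow_le_pow_right (by norm_num) (by omega)) hα0 hα1 hδ0 hδ1
    (by
      intro w hw
      obtain ⟨-, -, -, x4, x5, x6⟩ := hcc w hw
      have t1 := hT _ (P1 w hw)
      have t2 := hT _ (P3 w hw)
      have t3 := hT _ (P5 w hw)
      have a1 := Int.emod_add_mul_ediv (T (o₁ w)) N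
      have a2 := Int.emod_nonneg (T (o₁ w)) hN0.ne'
      have a3 := Int.emod_lt_of_pos (T (o₁ w)) hN0
      have b1 := Int.emod_add_mul_ediv (T (o₂ w)) N
      have b2 := Int.emod_nonneg (T (o₂ w)) hN0.ne'
      have b3 := Int.emod_lt_of_pos (T (o₂ w)) hN0
      have hs : T (o₂ w) / N + 1 ≤ 2 ^ i := by
        have : T (o₂ w) / N < 2 ^ i := by
          refine Int.ediv_lt_of_lt_mul hN0 ?_
          rw [← hMN]
          exact t2.2
        omega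
      have hs2 : (T (o₂ w) / N + 1) * N ≤ 2 ^ i * N :=
        mul_le_mul_of_nonneg_right hs hN0.le
      rw [← hMN] at hs2
      have hs0 : 0 ≤ T (o₂ w) / N := Int.ediv_nonneg t2.1 hN0.le
      have hs3 : 0 ≤ T (o₂ w) / N * N := mul_nonneg hs0 hN0.le
      simp only [hA1, hA2]
      rw [x4, x5, x6]
      push_cast
      rw [← hN]
      refine ⟨?_, ?_, ?_, ?_, ?_, ?_⟩ <;> nlinarith)
    (by
      intro w hw
      rw [vf w hw, vd1 w hw, vd2 w hw]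
      have g1 := hF _ (P1 w hw)
      have g2 := hF _ (P3 w hw)
      have g3 := hom _ (P1 w hw)
      have g4 := hom _ (P2 w hw)
      have g5 := hom _ (P4 w hw)
      refine ⟨?_, ?_, ?_, ?_⟩
      · rw [abs_div, abs_of_pos hD0, div_le_iff₀ hD0]
        linarith
      · rw [abs_div, abs_of_pos hD0, div_le_iff₀ hD0]
        have := abs_sub (om (m₁ w) : ℝ) (om (o₁ w) : ℝ)
        linarith
      · rw [abs_div, abs_of_pos hD0, div_le_iff₀ hD0]
        have := abs_sub (om (m₂ w) : ℝ) (om (m₁ w) : ℝ)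
        linarith
      · rw [abs_div, abs_of_pos hD0, div_le_iff₀ hD0]
        linarith)
    (by
      intro w hw
      obtain ⟨x1, x2, x3, x4, x5, x6⟩ := hcc w hw
      have L1 := hline _ _ (P1 _ (hσ w hw).1) (P1 w hw) x1
      have L2 := hline _ _ (P2 w hw) (P3 w hw) (h.l2 w hw)
      have L3 := hline _ _ (P4 w hw) (P5 w hw) (h.l3 w hw)
      obtain ⟨r1, r2, r3, r4, r5⟩ := m1 w hw
      obtain ⟨s1, s2, s3, s4, s5⟩ := m2 w hw
      obtain ⟨u1, u2⟩ := l2 w hw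
      obtain ⟨v1, v2, v3⟩ := l1 w hw
      have T1 := hTr _ (P1 w hw)
      have T2 := hTr _ (P3 w hw)
      have T3 := hTr _ (P5 w hw)
      constructor
      · rw [vd1 w hw, vd2 w hw]
        simp only [hy0]
        rw [x4, v1]
        push_cast
        refine pos_y hD0 (a0 := om (o₁ w)) (a1 := om (m₁ w)) (a2 := om (m₂ w))
          (y1 := y (o₁ w)) (y2 := y (o₂ w)) ?_ ?_ ?_
        · have := L1.2.2.2.1
          rw [v1] at this
          exact this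
        · have := L2.2.2.2.1
          rw [← r1, ← r2] at this
          exact this
        · have := L3.2.2.2.1
          rw [← s1, ← s2] at this
          exact this
      · rw [vd1 w hw, vd2 w hw, vf w hw]
        simp only [hn0]
        rw [x4, v2]
        push_cast
        refine pos_n hD0 (a0 := om (o₁ w)) (a1 := om (m₁ w)) (a2 := om (m₂ w))
          (v0 := ve (o₁ w)) (v1 := ve (m₁ w)) (v2 := ve (m₂ w))
          (n1 := n (o₁ w)) (n2 := n (o₂ w)) ?_ ?_ ?_ r5 ?_ ?_ ?_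
        · have := L1.2.2.2.2.1
          rw [v2] at this
          exact this
        · have := L2.2.2.2.2.1
          rw [← r1, ← r3] at this
          exact this
        · have := L3.2.2.2.2.1
          rw [← s1, ← s3] at this
          exact this
        · rw [u1, u2]
          exact s5
        · rw [abs_le]
          constructor <;> linarith [T1.1, T1.2, T3.1, T3.2]
        · rw [abs_le]
          constructor <;> linarith [T2.1, T2.2, T3.1, T3.2])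
    (fun w hw _ => hw)
  -- the deficits
  have hs : ∀ ω, 0 < p ω → 0 ≤ T ω / N ∧ T ω / N < 2 ^ i := by
    intro ω hω
    refine ⟨Int.ediv_nonneg (hT ω hω).1 hN0.le, Int.ediv_lt_of_lt_mul hN0 ?_⟩
    rw [← hMN]
    exact (hT ω hω).2
  have D1 : K * Real.log 2 - 2 * e - 2 * I - 2 * (i * Real.log 2) ≤
      CH q (fun w => T (o₃ w) - T (o₁ w)) c := by
    have a1 := CH_le_add hq (fun w => T (o₁ w)) (fun w => (T (o₁ w) / N, T (o₂ w) / N))
      (fun w => ((T (o₃ w), (om (m₂ w), om (m₁ w))), lam (o₁ w)))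
    have a2 := CH_subadd hq (fun w => T (o₁ w) / N) (fun w => T (o₂ w) / N)
      (fun w => ((T (o₃ w), (om (m₂ w), om (m₁ w))), lam (o₁ w)))
    have a3 := CH_le_pow h.isLaw (fun w => T (o₁ w) / N)
      (fun w => ((T (o₃ w), (om (m₂ w), om (m₁ w))), lam (o₁ w))) i
      (fun w hw => hs _ (P1 w hw))
    have a4 := CH_le_pow h.isLaw (fun w => T (o₂ w) / N)
      (fun w => ((T (o₃ w), (om (m₂ w), om (m₁ w))), lam (o₁ w))) i
      (fun w hw => hs _ (P3 w hw))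
    have a5 : CH q (fun w => T (o₁ w)) (fun w => ((T (o₁ w) / N, T (o₂ w) / N),
        ((T (o₃ w), (om (m₂ w), om (m₁ w))), lam (o₁ w)))) =
        CH q (fun w => T (o₃ w) - T (o₁ w)) c := by
      refine CH_congr hq ?_ ?_ ?_ ?_
      · intro w w' _ _ hh
        simp only [Prod.mk.injEq] at hh
        change T (o₃ w) - T (o₁ w) = T (o₃ w') - T (o₁ w')
        rw [hh.1, hh.2.2.1.1]
      · intro w w' _ _ hh
        simp only [hc, Prod.mk.injEq] at hh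
        change T (o₁ w) = T (o₁ w')
        have e1 := hh.1
        have e2 := hh.2.2.2.2.1
        linarith
      · intro w w' _ _ hh
        simp only [hc, Prod.mk.injEq] at hh ⊢
        tauto
      · intro w w' _ _ hh
        simp only [hc, Prod.mk.injEq] at hh ⊢
        tauto
    linarith
  have D2 : K * Real.log 2 - 2 * e - I - i * Real.log 2 ≤
      CH q (fun w => T (o₃ w) - T (o₂ w))
        (fun w => (T (o₃ w) - T (o₁ w), (F (o₂ w) : ℝ) / D, c w)) := by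
    have a1 := CH_le_add hq (fun w => T (o₂ w)) (fun w => T (o₂ w) / N)
      (fun w => ((T (o₃ w), om (m₂ w)), (o₁ w, m₁ w)))
    have a3 := CH_le_pow h.isLaw (fun w => T (o₂ w) / N)
      (fun w => ((T (o₃ w), om (m₂ w)), (o₁ w, m₁ w))) i
      (fun w hw => hs _ (P3 w hw))
    have a5 : CH q (fun w => T (o₂ w)) (fun w => (T (o₂ w) / N,
        ((T (o₃ w), om (m₂ w)), (o₁ w, m₁ w)))) ≤
        CH q (fun w => T (o₂ w))
          (fun w => (T (o₃ w) - T (o₁ w), (F (o₂ w) : ℝ) / D, c w)) := by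
      refine CH_mono_cond hq ?_
      intro w w' a a' hh
      simp only [Prod.mk.injEq] at hh
      obtain ⟨e1, ⟨e2, e3⟩, e4, e5⟩ := hh
      have e6 : F (o₂ w) = F (o₂ w') := by
        refine (hline _ _ (P3 w a) (P3 w' a') ?_).2.2.2.2.2 e1
        rw [← h.l2 w a, ← h.l2 w' a', e5]
      simp only [hc]
      rw [e1, e2, e3, e4, e5, e6]
    have a6 : CH q (fun w => T (o₂ w))
          (fun w => (T (o₃ w) - T (o₁ w), (F (o₂ w) : ℝ) / D, c w)) ≤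
        CH q (fun w => T (o₃ w) - T (o₂ w))
          (fun w => (T (o₃ w) - T (o₁ w), (F (o₂ w) : ℝ) / D, c w)) := by
      refine CH_mono_left hq ?_
      intro w w' _ _ hh
      simp only [hc, Prod.mk.injEq] at hh
      change T (o₂ w) = T (o₂ w')
      have e1 := hh.1
      have e2 := hh.2.2.2.2.2.2.1
      linarith
    linarith
  have hG : 1 - β1 - 2 * β2 ≤ Pr q G := by
    have p1 := Pr_pull h.d2 {w | |(F w.2 : ℝ) - F w.1| < α * 2 ^ K}
    have p2 := Pr_pull h.d1 {w | |(om w.2 : ℝ) - om w.1| < δ * 2 ^ K}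
    have p3 := Pr_pull h.d3 {w | |(om w.2 : ℝ) - om w.1| < δ * 2 ^ K}
    have p4 := Pr_ge h.isLaw G
      {w | (m₁ w, o₂ w) ∈ {v : Ω × Ω | |(F v.2 : ℝ) - F v.1| < α * 2 ^ K}}
      {w | (o₁ w, m₁ w) ∈ {v : Ω × Ω | |(om v.2 : ℝ) - om v.1| < δ * 2 ^ K}}
      {w | (o₂ w, m₂ w) ∈ {v : Ω × Ω | |(om v.2 : ℝ) - om v.1| < δ * 2 ^ K}} ?_
    · linarith
    · intro w hw hG
      by_contra hcon
      simp only [Set.mem_ofPred_eq, not_or, not_lt] at hcon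
      obtain ⟨k1, k2, k3⟩ := hcon
      refine hG ?_
      simp only [hGdef, Set.mem_ofPred_eq]
      rw [vf w hw, vd1 w hw, vd2 w hw, ← sub_div]
      refine ⟨?_, ?_, ?_⟩
      · rw [abs_div, abs_of_pos hD0, le_div_iff₀ hD0, (m1 w hw).2.2.2.1]
        exact k1
      · rw [abs_div, abs_of_pos hD0, le_div_iff₀ hD0]
        exact k2
      · rw [abs_div, abs_of_pos hD0, le_div_iff₀ hD0, (l2 w hw).1]
        exact k3
  have hH : CH q (fun w => (y (o₃ w), n (o₃ w))) c ≤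
      CH p (fun ω => (y ω, n ω)) (fun ω => (b ω, T ω)) := by
    rw [← h.mo3.CH (fun ω => (y ω, n ω)) (fun ω => (b ω, T ω))]
    refine CH_mono_cond hq ?_
    have bb : ∀ w, 0 < q w → b (o₁ w) = b (o₃ w) := by
      intro w hw
      have x1 := hm _ _ (P1 w hw) (P2 w hw) (h.b1 w hw)
      have x2 := hl _ _ (P2 w hw) (P3 w hw) (h.l2 w hw)
      have x3 := hm _ _ (P3 w hw) (P4 w hw) (h.b2 w hw)
      have x4 := hl _ _ (P4 w hw) (P5 w hw) (h.l3 w hw)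
      exact ((x1.trans x2).trans x3).trans x4
    intro w w' a a' hh
    simp only [hc, Prod.mk.injEq] at hh ⊢
    refine ⟨?_, hh.2.2.2.1⟩
    rw [← bb w a, ← bb w' a']
    exact hl _ _ (P1 w a) (P1 w' a') hh.1
  have hlogN : Real.log ((2 ^ (K - i) : ℕ) : ℝ) = (K - i) * Real.log 2 := by
    push_cast
    rw [Real.log_pow, Nat.cast_sub hiK]
  have hlogM : Real.log ((2 ^ K : ℕ) : ℝ) = K * Real.log 2 := by
    push_cast
    rw [Real.log_pow]
  rw [hlogN, hlogM] at key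
  refine fin_real hC1 hα0 hδ0 hβ he0 hI0 hG key ?_ hH (CH_nonneg hp.nonneg _ _)
  linarith

end Pool.LJ
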