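import Pool.Agent.H86.LJ.LJC
import Pool.Agent.H97.LJ.LJD

/-!
# Lemma J, complete
-/

set_option autoImplicit false

namespace Pool.LJ

/-- **Lemma J**: a steep turning of the frame fills the rows. -/
theorem lemma_J : LJDStmt := ljd_thm ljc_thm

end Pool.LJ
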