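import Pool.Agent.H62.LJ.Stmts

/-!
# Lemma J: counting pairs of second times
-/

set_option autoImplicit false

namespace Pool.LJ

open Finset Real

namespace LJB

/-- Number of integers `t` with `t x` in an interval of length `2 r`. -/
lemma card_le (S : Finset ℤ) {x z r : ℝ} (hx : 0 < |x|) (hr : 0 ≤ r)
    (h : ∀ t ∈ S, |(t : ℝ) * x - z| ≤ r) : (S.card : ℝ) ≤ 2 * r / |x| + 1 := by
  rcases S.eq_empty_or_nonempty with h0 | h0
  · rw [h0]
    simp only [Finset.card_empty, Nat.cast_zero]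
    positivity
  · have h1 : S ⊆ Finset.Icc (S.min' h0) (S.max' h0) := fun t ht =>
      Finset.mem_Icc.mpr ⟨S.min'_le t ht, S.le_max' t ht⟩
    have h2 := Finset.card_le_card h1
    rw [Int.card_Icc] at h2
    have hmm : S.min' h0 ≤ S.max' h0 := S.min'_le _ (S.max'_mem h0)
    have h3 : (S.card : ℝ) ≤ (S.max' h0 : ℝ) + 1 - S.min' h0 := by
      have h4 : ((S.card : ℕ) : ℤ) ≤ S.max' h0 + 1 - S.min' h0 := by omega
      exact_mod_cast h4
    have h5 := h _ (S.max'_mem h0)
    have h6 := h _ (S.min'_mem h0)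
    have h7 : ((S.max' h0 : ℝ) - S.min' h0) * |x| ≤ 2 * r := by
      have h8 : (0 : ℝ) ≤ (S.max' h0 : ℝ) - S.min' h0 := by
        have : (S.min' h0 : ℝ) ≤ S.max' h0 := by exact_mod_cast hmm
        linarith
      have h9 : ((S.max' h0 : ℝ) - S.min' h0) * |x| =
          |((S.max' h0 : ℝ) * x - z) - ((S.min' h0 : ℝ) * x - z)| := by
        rw [show ((S.max' h0 : ℝ) * x - z) - ((S.min' h0 : ℝ) * x - z) =
          ((S.max' h0 : ℝ) - S.min' h0) * x by ring, abs_mul, abs_of_nonneg h8]
      rw [h9]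
      exact (abs_sub _ _).trans (by linarith)
    have h10 : (S.max' h0 : ℝ) - S.min' h0 ≤ 2 * r / |x| := by
      rw [le_div_iff₀ hx]
      exact h7
    linarith

/-- Counting pairs. -/
lemma card_pairs (S : Finset (ℤ × ℤ)) (T : Finset ℤ) {A B : ℝ} (hB : 0 ≤ B)
    (hT : (T.card : ℝ) ≤ A) (h1 : ∀ t ∈ S, t.1 ∈ T)
    (h2 : ∀ s ∈ T, ((S.filter fun t => t.1 = s).card : ℝ) ≤ B) : (S.card : ℝ) ≤ A * B := by
  have h3 : S.card = ∑ s ∈ T, (S.filter fun t => t.1 = s).card :=
    Finset.card_eq_sum_card_fiberwise (f := Prod.fst) (fun t ht => h1 t ht)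
  rw [h3]
  push_cast
  calc ∑ s ∈ T, ((S.filter fun t => t.1 = s).card : ℝ) ≤ ∑ _s ∈ T, B := Finset.sum_le_sum h2
    _ = T.card * B := by rw [Finset.sum_const, nsmul_eq_mul]
    _ ≤ A * B := mul_le_mul_of_nonneg_right hT hB

end LJB

open LJB in
/-- **Row LJB.** -/
theorem LJB.ljb97 : LJBStmt := by
  refine ⟨1000000, by norm_num, ?_⟩
  intro M S a a' d1 d2 α δ κ hM hS hκ hα0 hα1 hδ0 hδ1 ha ha' ha6 ha'6 hd1 hd2 hd13 hd23
  have hM0 : (1 : ℝ) ≤ M := by exact_mod_cast hM
  have hαδ : 0 < α * δ := mul_pos hα0 hδ0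
  set Q := (S ×ˢ S).filter fun t : ℤ × ℤ => |((t.1 : ℝ) - t.2) * d2 + κ * d1| ≤ 64 ∧
      |(t.1 : ℝ) * d2 * a - t.2 * d2 * a'| ≤ 256 with hQ
  have hmem : ∀ t ∈ Q, t.1 ∈ S ∧ t.2 ∈ S ∧ |((t.1 : ℝ) - t.2) * d2 + κ * d1| ≤ 64 ∧
      |(t.1 : ℝ) * d2 * a - t.2 * d2 * a'| ≤ 256 := by
    intro t ht
    rw [hQ, Finset.mem_filter, Finset.mem_product] at ht
    exact ⟨ht.1.1, ht.1.2, ht.2.1, ht.2.2⟩
  have hd20 : 0 < |d2| := lt_of_lt_of_le hδ0 hd2
  -- the fibres
  have hfib : ∀ s : ℤ, ((Q.filter fun t => t.1 = s).card : ℝ) ≤ 129 / δ := by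
    intro s
    have h1 : (Q.filter fun t => t.1 = s).card =
        ((Q.filter fun t => t.1 = s).image Prod.snd).card := by
      rw [Finset.card_image_of_injOn]
      intro t ht t' ht' hh
      rw [Finset.mem_coe, Finset.mem_filter] at ht ht'
      exact Prod.ext (ht.2.trans ht'.2.symm) hh
    rw [h1]
    have h2 := card_le ((Q.filter fun t => t.1 = s).image Prod.snd) (x := d2)
      (z := s * d2 + κ * d1) (r := 64) hd20 (by norm_num) (by
        intro u hu
        rw [Finset.mem_image] at hu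
        obtain ⟨t, ht, rfl⟩ := hu
        rw [Finset.mem_filter] at ht
        have h3 := (hmem t ht.1).2.2.1
        rw [ht.2] at h3
        rw [abs_sub_comm]
        convert h3 using 2
        ring)
    refine h2.trans ?_
    have h4 : 2 * (64 : ℝ) / |d2| ≤ 2 * 64 / δ :=
      div_le_div_of_nonneg_left (by norm_num) hδ0 hd2
    have h5 : (1 : ℝ) ≤ 1 / δ := by rw [le_div_iff₀ hδ0]; linarith
    have h6 : (129 : ℝ) / δ = 2 * 64 / δ + 1 / δ := by ring
    linarith
  have hfib0 : (0 : ℝ) ≤ 129 / δ := by positivity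
  rcases le_or_gt (1280 / (α * δ)) |κ| with hk | hk
  · -- large distance of the first times
    have hk0 : 0 < |κ| := lt_of_lt_of_le (by positivity) hk
    have hk1 : 1 ≤ |κ| := by
      refine le_trans ?_ hk
      rw [le_div_iff₀ hαδ]
      have : α * δ ≤ 1 := by
        calc α * δ ≤ 1 * 1 := mul_le_mul hα1 hδ1 hδ0.le zero_le_one
          _ = 1 := one_mul 1
      linarith
    have hmax : max |κ| 1 = |κ| := max_eq_left hk1
    have hk2 : 1280 ≤ |κ| * (α * δ) := by
      rwa [div_le_iff₀ hαδ] at hk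
    have key : ∀ t ∈ Q, |(t.1 : ℝ) * (d2 * (a - a')) - κ * d1 * a'| ≤ 640 := by
      intro t ht
      obtain ⟨-, -, h1, h2⟩ := hmem t ht
      have e : (t.1 : ℝ) * (d2 * (a - a')) - κ * d1 * a' =
          ((t.1 : ℝ) * d2 * a - t.2 * d2 * a') -
            (((t.1 : ℝ) - t.2) * d2 + κ * d1) * a' := by ring
      rw [e]
      refine (abs_sub _ _).trans ?_
      rw [abs_mul]
      have : |((t.1 : ℝ) - t.2) * d2 + κ * d1| * |a'| ≤ 64 * 6 :=
        mul_le_mul h1 ha'6 (abs_nonneg _) (by norm_num)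
      linarith
    rcases Q.eq_empty_or_nonempty with h0 | ⟨t0, ht0⟩
    · rw [h0]
      simp only [Finset.card_empty, Nat.cast_zero]
      positivity
    · have haa : |κ| * (α * δ) ≤ 6 * M * |a - a'| := by
        have h1 := key t0 ht0
        have h2 := hS _ (hmem t0 ht0).1
        have h3 : |κ| * (α * δ) ≤ |κ * d1 * a'| := by
          rw [abs_mul, abs_mul, mul_assoc]
          refine mul_le_mul_of_nonneg_left ?_ hk0.le
          rw [mul_comm α δ]
          exact mul_le_mul hd1 ha' hα0.le (abs_nonneg _)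
        have h4 : |κ * d1 * a'| ≤ 640 + |(t0.1 : ℝ) * (d2 * (a - a'))| := by
          have h5 := abs_sub_abs_le_abs_sub (κ * d1 * a') ((t0.1 : ℝ) * (d2 * (a - a')))
          rw [abs_sub_comm] at h5
          linarith
        have h6 : |(t0.1 : ℝ) * (d2 * (a - a'))| ≤ M * (3 * |a - a'|) := by
          rw [abs_mul, abs_mul]
          exact mul_le_mul h2 (mul_le_mul_of_nonneg_right hd23 (abs_nonneg _))
            (by positivity) (by linarith)
        linarith
      have haa0 : 0 < |a - a'| := by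
        by_contra hcon
        have : |a - a'| = 0 := le_antisymm (not_lt.mp hcon) (abs_nonneg _)
        rw [this] at haa
        linarith
      have hx : 0 < |d2 * (a - a')| := by
        rw [abs_mul]
        exact mul_pos hd20 haa0
      have hT := card_le (Q.image Prod.fst) (x := d2 * (a - a')) (z := κ * d1 * a') (r := 640)
        hx (by norm_num) (by
          intro u hu
          rw [Finset.mem_image] at hu
          obtain ⟨t, ht, rfl⟩ := hu
          exact key t ht)
      have hT2 : ((Q.image Prod.fst).card : ℝ) ≤ 7682 * M / (α * δ ^ 2 * |κ|) := by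
        refine hT.trans ?_
        have hpos : 0 < α * δ ^ 2 * |κ| := by positivity
        have h1 : δ * (|κ| * (α * δ)) ≤ 6 * M * |d2 * (a - a')| := by
          rw [abs_mul]
          calc δ * (|κ| * (α * δ)) ≤ |d2| * (6 * M * |a - a'|) :=
                mul_le_mul hd2 haa (by positivity) (abs_nonneg _)
            _ = 6 * M * (|d2| * |a - a'|) := by ring
        have h2 : 2 * (640 : ℝ) / |d2 * (a - a')| ≤ 7680 * M / (α * δ ^ 2 * |κ|) := by
          rw [div_le_div_iff₀ hx hpos]
          nlinarith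
        have h3 : (1 : ℝ) ≤ 2 * M / (α * δ ^ 2 * |κ|) := by
          rw [le_div_iff₀ hpos, one_mul]
          have h4 : α * δ ^ 2 ≤ 1 := by
            have : δ ^ 2 ≤ 1 := pow_le_one₀ hδ0.le hδ1
            calc α * δ ^ 2 ≤ 1 * 1 := mul_le_mul hα1 this (by positivity) zero_le_one
              _ = 1 := one_mul 1
          calc α * δ ^ 2 * |κ| ≤ 1 * |κ| := mul_le_mul_of_nonneg_right h4 hk0.le
            _ = |κ| := one_mul _
            _ ≤ 2 * M := hκ
        have h5 : 7682 * (M : ℝ) / (α * δ ^ 2 * |κ|) =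
            7680 * M / (α * δ ^ 2 * |κ|) + 2 * M / (α * δ ^ 2 * |κ|) := by ring
        linarith
      have h7 := card_pairs Q (Q.image Prod.fst) hfib0 hT2
        (fun t ht => Finset.mem_image_of_mem _ ht) (fun s _ => hfib s)
      refine h7.trans ?_
      rw [hmax, div_mul_div_comm]
      have hpos2 : 0 < α * δ ^ 2 * |κ| * δ := by positivity
      have e : α * δ ^ 3 * |κ| = α * δ ^ 2 * |κ| * δ := by ring
      rw [e]
      refine div_le_div_of_nonneg_right ?_ hpos2.le
      nlinarith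
  · -- small distance of the first times
    have hT := card_le S (x := 1) (z := 0) (r := M) (by norm_num) (by linarith) (by
      intro t ht
      have := hS t ht
      simpa using this)
    have hT2 : (S.card : ℝ) ≤ 3 * M := by
      rw [abs_one, div_one] at hT
      linarith
    have h7 := card_pairs Q S hfib0 hT2 (fun t ht => (hmem t ht).1) (fun s _ => hfib s)
    refine h7.trans ?_
    have hmax : max |κ| 1 ≤ 1280 / (α * δ) := by
      refine max_le hk.le ?_
      rw [le_div_iff₀ hαδ]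
      have : α * δ ≤ 1 := by
        calc α * δ ≤ 1 * 1 := mul_le_mul hα1 hδ1 hδ0.le zero_le_one
          _ = 1 := one_mul 1
      linarith
    have hm0 : 0 < max |κ| 1 := lt_of_lt_of_le one_pos (le_max_right _ _)
    have hpos : 0 < α * δ ^ 3 * max |κ| 1 := by positivity
    rw [le_div_iff₀ hpos]
    have h8 : α * δ * max |κ| 1 ≤ 1280 := by
      have := mul_le_mul_of_nonneg_left hmax hαδ.le
      rwa [mul_div_cancel₀ _ hαδ.ne'] at this
    have e : 3 * (M : ℝ) * (129 / δ) * (α * δ ^ 3 * max |κ| 1) =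
        387 * M * (δ * (α * δ * max |κ| 1)) := by
      field_simp
      ring
    rw [e]
    have h9 : δ * (α * δ * max |κ| 1) ≤ 1 * 1280 :=
      mul_le_mul hδ1 h8 (by positivity) zero_le_one
    nlinarith

end Pool.LJ
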